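import Mathlib
import Pool.Agent.H10.BadTriDefs
import Pool.Agent.H10.BadTri

set_option autoImplicit false

namespace Pool.Agent.Results.MP_8cfbc5_co.Threshold

open Pool.Agent.H10.BadTri in
/-- For `δ > 0`, property `P(δ)` holds exactly when `δ ≥ 1`: the threshold is `1` and it is not
attained by a failing value. -/
theorem result (δ : ℝ) (hδ : 0 < δ) : P δ ↔ 1 ≤ δ :=
  ⟨fun h => by
    by_contra hc
    exact not_P δ hδ (not_le.mp hc) h, P_of_ge δ⟩

end Pool.Agent.Results.MP_8cfbc5_co.Threshold
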